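import Pool.Agent.H84.LSB.TargetsHL

/-!
# Row HRI of the board hlm_modules: refined decoupling at the scale `R/w²`, integral form
-/

set_option autoImplicit false

namespace Pool.Agent.H4.LSB.HRI

open MeasureTheory Set
open Pool.Agent.H83.G
open Pool.Agent.H88.B2
open Pool.Agent.H84.LSB
open scoped ENNReal NNReal RealInnerProductSpace

lemma lint_scale_Z (f : Z 2 → ℝ≥0∞) (hf : Measurable f) (w : ℝ) (hw : 0 < w) :
    ∫⁻ z, f (w • z) = ENNReal.ofReal ((w⁻¹) ^ 4) * ∫⁻ z, f z := by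
  haveI h1 : (volume : Measure (E 2 × ℝ)).IsAddHaarMeasure := by
    rw [Measure.volume_eq_prod]
    infer_instance
  haveI h2 : (volume : Measure (ℝ × (E 2 × ℝ))).IsAddHaarMeasure := by
    rw [Measure.volume_eq_prod]
    infer_instance
  have h3 : ∫⁻ z : ℝ × (E 2 × ℝ), f (w • z) =
      ∫⁻ y, f y ∂(Measure.map (fun x : ℝ × (E 2 × ℝ) => w • x) volume) := by
    rw [lintegral_map (by fun_prop) (by fun_prop)]
  have h4 : Module.finrank ℝ (ℝ × (E 2 × ℝ)) = 4 := by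
    rw [Module.finrank_prod, Module.finrank_prod, Module.finrank_self, finrank_euclideanSpace_fin]
  change ∫⁻ z : ℝ × (E 2 × ℝ), f (w • z) = _
  rw [h3, Measure.map_addHaar_smul (volume : Measure (ℝ × (E 2 × ℝ))) hw.ne',
    lintegral_smul_measure, h4]
  rw [smul_eq_mul]
  congr 2
  rw [abs_of_pos (by positivity), inv_pow]

lemma mem_Sb (w : ℝ) (S : Finset (Pk 2)) (j : Fin 2 → ℤ) (W : Pk 2) :
    W ∈ Sb w S j ↔ W ∈ S ∧ kb w W.1 = j := by
  unfold Sb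
  rw [Finset.mem_filter]

lemma sum_Sb {A : Type} [AddCommMonoid A] (w : ℝ) (S : Finset (Pk 2)) (f : Pk 2 → A) :
    ∑ j ∈ S.image (fun W => kb w W.1), ∑ W ∈ Sb w S j, f W = ∑ W ∈ S, f W := by
  unfold Sb
  rw [← Finset.sum_fiberwise_of_maps_to (g := fun W : Pk 2 => kb w W.1)
    (t := S.image (fun W => kb w W.1)) (fun W hW => Finset.mem_image_of_mem _ hW) f]

lemma nd_nn (N : ℕ) (R δ w : ℝ) (S : Finset (Pk 2)) (z : Z 2) : 0 ≤ Nd N R δ w S z := by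
  unfold Nd ww
  positivity

lemma expo (R w P δ j C3 CC CM CI q : ℝ) (hR : 1 ≤ R) (hw : 1 ≤ w) (hδ : 0 < δ) (hP : 0 ≤ P)
    (hP4 : P ≤ 4) (hj : 0 ≤ 1 / j) (hjδ : 1 / j ≤ δ) (hC3 : 0 ≤ C3) (hCC : 0 ≤ CC)
    (hCM : 0 ≤ CM) (hCI : 0 ≤ CI) (hq : 0 ≤ q) :
    (C3 * (R / w ^ 2) ^ ((P + 1) / j)) * ((CC * (R ^ δ / w)) ^ P * (CM * w ^ 3) ^ (P / 2) *
      (q * ((w⁻¹) ^ 4 * (CI * R ^ (δ * 3) * (w * R ^ δ) * R ^ 2)))) ≤
    (C3 * CC ^ P * CM ^ (P / 2) * CI) * R ^ (20 * δ) * w ^ (P / 2 - 3) * q * R ^ 2 := by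
  have hR0 : 0 < R := by linarith
  have hw0 : 0 < w := by linarith
  have h1 : (R / w ^ 2) ^ ((P + 1) / j) ≤ R ^ (5 * δ) := by
    have k1 : R / w ^ 2 ≤ R := div_le_self hR0.le (one_le_pow₀ hw)
    have k2 : (P + 1) / j ≤ 5 * δ := by
      calc (P + 1) / j = (P + 1) * (1 / j) := by ring
        _ ≤ 5 * δ := mul_le_mul (by linarith) hjδ hj (by norm_num)
    have k3 : 0 ≤ (P + 1) / j := by
      have : (P + 1) / j = (P + 1) * (1 / j) := by ring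
      rw [this]
      positivity
    calc (R / w ^ 2) ^ ((P + 1) / j) ≤ R ^ ((P + 1) / j) :=
          Real.rpow_le_rpow (by positivity) k1 k3
      _ ≤ R ^ (5 * δ) := Real.rpow_le_rpow_of_exponent_le hR k2
  have h2 : (CC * (R ^ δ / w)) ^ P = CC ^ P * R ^ (δ * P) * (w ^ P)⁻¹ := by
    rw [Real.mul_rpow hCC (by positivity), Real.div_rpow (by positivity) hw0.le,
      ← Real.rpow_mul hR0.le]
    ring
  have h3 : (CM * w ^ 3) ^ (P / 2) = CM ^ (P / 2) * w ^ (3 * P / 2) := by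
    rw [Real.mul_rpow hCM (by positivity), ← Real.rpow_natCast, ← Real.rpow_mul hw0.le]
    congr 2
    push_cast
    ring
  have h4 : w ^ (P / 2 - 3) = (w ^ P)⁻¹ * w ^ (3 * P / 2) * ((w⁻¹) ^ 4 * w) := by
    have e1 : (w⁻¹) ^ 4 * w = w ^ (-3 : ℝ) := by
      rw [Real.rpow_neg hw0.le]
      have : w ^ (3 : ℝ) = w ^ (3 : ℕ) := by
        rw [← Real.rpow_natCast]
        norm_num
      rw [this]
      field_simp
    rw [e1, ← Real.rpow_neg hw0.le, ← Real.rpow_add hw0, ← Real.rpow_add hw0]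
    congr 1
    ring
  have h5 : R ^ (5 * δ) * (R ^ (δ * P) * (R ^ (δ * 3) * R ^ δ)) ≤ R ^ (20 * δ) := by
    rw [← Real.rpow_add hR0, ← Real.rpow_add hR0, ← Real.rpow_add hR0]
    refine Real.rpow_le_rpow_of_exponent_le hR ?_
    nlinarith
  have hCCP : 0 ≤ CC ^ P := Real.rpow_nonneg hCC _
  have hCMP : 0 ≤ CM ^ (P / 2) := Real.rpow_nonneg hCM _
  rw [h2, h3, h4]
  calc (C3 * (R / w ^ 2) ^ ((P + 1) / j)) * (CC ^ P * R ^ (δ * P) * (w ^ P)⁻¹ *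
        (CM ^ (P / 2) * w ^ (3 * P / 2)) *
        (q * ((w⁻¹) ^ 4 * (CI * R ^ (δ * 3) * (w * R ^ δ) * R ^ 2))))
      = (C3 * CC ^ P * CM ^ (P / 2) * CI * ((w ^ P)⁻¹ * w ^ (3 * P / 2) * ((w⁻¹) ^ 4 * w)) * q *
          R ^ 2 * (R ^ (δ * P) * (R ^ (δ * 3) * R ^ δ))) *
          (R / w ^ 2) ^ ((P + 1) / j) := by ring
    _ ≤ (C3 * CC ^ P * CM ^ (P / 2) * CI * ((w ^ P)⁻¹ * w ^ (3 * P / 2) * ((w⁻¹) ^ 4 * w)) * q *
          R ^ 2 * (R ^ (δ * P) * (R ^ (δ * 3) * R ^ δ))) * R ^ (5 * δ) :=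
        mul_le_mul_of_nonneg_left h1 (by positivity)
    _ = (C3 * CC ^ P * CM ^ (P / 2) * CI * ((w ^ P)⁻¹ * w ^ (3 * P / 2) * ((w⁻¹) ^ 4 * w)) * q *
          R ^ 2) * (R ^ (5 * δ) * (R ^ (δ * P) * (R ^ (δ * 3) * R ^ δ))) := by ring
    _ ≤ (C3 * CC ^ P * CM ^ (P / 2) * CI * ((w ^ P)⁻¹ * w ^ (3 * P / 2) * ((w⁻¹) ^ 4 * w)) * q *
          R ^ 2) * R ^ (20 * δ) := mul_le_mul_of_nonneg_left h5 (by positivity)
    _ = _ := by ring

theorem pf_HRI (hRDA : T_RDA) (hOWA : T_OWA) (hOWS : T_OWS) (hOWI : T_OWI) (hHPT : T_HPT)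
    (hMKB : T_MKB) (hHRG : T_HRG) (hKBL : T_KBL) : T_HRI := by
  intro N δ C₀ P φ hN hδ hδ1 hC₀ hP2 hP4 hφ hφs
  set J : ℕ := ⌈1 / δ⌉₊ with hJ
  have hJ1 : 1 / δ ≤ J := Nat.le_ceil _
  have hJpos : (0 : ℝ) < J := lt_of_lt_of_le (by positivity) hJ1
  have hJ1' : 1 ≤ J := by exact_mod_cast hJpos
  have hJδ : 1 / (J : ℝ) ≤ δ := by
    rw [div_le_iff₀ hJpos]
    rw [div_le_iff₀ hδ] at hJ1
    linarith
  have hJ0 : 0 ≤ 1 / (J : ℝ) := by positivity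
  obtain ⟨D, hD, hRG⟩ := hHRG
  obtain ⟨CS, hCS, hS4⟩ := hOWS 2 N 3 (by norm_num)
  obtain ⟨CI, hCI, hI⟩ := hOWI 2 N hN
  obtain ⟨CH, hCH, hH⟩ := hHPT 2 N φ (by omega) hφ (fun x hx => by
    obtain ⟨h1, h2⟩ := hφs x hx
    rw [abs_le]
    constructor <;> linarith)
  obtain ⟨CM, hCM, hM⟩ := hMKB N hN
  obtain ⟨C3, hC3, hRD⟩ := hRDA 2 (2 * N) J P D CS (by norm_num) hP2
    (by push_cast; linarith) hD (by linarith) hJ1'
  refine ⟨max 1 (C3 * (CH * C₀) ^ P * CM ^ (P / 2) * CI), le_max_left _ _, ?_⟩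
  intro R w S G hR hw hwR hSne hHB
  have hP0 : 0 < P := by linarith
  have hR0 : 0 < R := by linarith
  have hRd1 : 1 ≤ R ^ δ := Real.one_le_rpow hR hδ.le
  have hRd0 : 0 < R ^ δ := by linarith
  have hw1 : 1 ≤ w := hRd1.trans hw
  have hw0 : 0 < w := by linarith
  have hwsq : w ≤ Real.sqrt R := Real.le_sqrt_of_sq_le hwR
  have hwR1 : 0 < w * R ^ δ := by positivity
  set R' : ℝ := R / w ^ 2 with hR'
  have hR'1 : 1 ≤ R' := (one_le_div (by positivity)).2 hwR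
  have hR'0 : 0 < R' := by linarith
  have hR'R : R' ≤ R := div_le_self hR0.le (one_le_pow₀ hw1)
  have hsR' : sR R' = w * sR R := (hKBL R w 0 hR hw1).2.2.1
  have hsRp : 0 < sR R := by
    unfold sR
    exact inv_pos.mpr (Real.sqrt_pos.mpr hR0)
  have hCC0 : 0 ≤ CH * C₀ := by
    have : 0 ≤ CH := by linarith
    have : 0 ≤ C₀ := by linarith
    positivity
  have hG : ∀ j, ∃ G' : Z 2 → ℂ, TC G' ∧
      (∀ z, TF G' z = ∑ W ∈ Sb w S j, TF (mu1 φ w (G W)) (w • z)) ∧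
      ∀ ζ, G' ζ ≠ 0 → 1 / 2 ≤ ζ.1 ∧ ζ.1 ≤ 2 ∧ ‖ζ‖ ≤ D ∧
        ‖ζ.1⁻¹ • ζ.2.1 - ctr (w * sR R) j‖ ≤ D * (w * sR R) ∧
        |ζ.2.2 - ‖ζ.2.1‖ ^ 2 / ζ.1| ≤ D * (w * sR R) ^ 2 :=
    fun j => hRG N R δ w C₀ φ S G j hR hδ.le hw1 hwR hφ hφs hHB
  choose G' hG'TC hG'TF hG'supp using hG
  set I : Finset (Fin 2 → ℤ) := S.image (fun W => kb w W.1) with hIdef
  have hIK : I ⊆ Ks 2 (sR R') := by
    intro j hj
    obtain ⟨W, hW, rfl⟩ := Finset.mem_image.mp hj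
    rw [hsR']
    exact (hKBL R w W.1 hR hw1).2.1 (hHB W hW).2.1
  set M : (Fin 2 → ℤ) → Z 2 → ℝ≥0∞ := fun j z =>
    ENNReal.ofReal (Nd N R δ (w * R ^ δ) (Sb w S j) (w • z)) with hMdef
  have hwwc : ∀ W : Pk 2, Continuous (ww N R δ (w * R ^ δ) W) := fun W =>
    (hOWA 2 N R δ W hR hδ.le).1 _ hwR1
  have hNdc : ∀ T : Finset (Pk 2), Continuous (Nd N R δ (w * R ^ δ) T) := by
    intro T
    unfold Nd
    exact continuous_finsetSum _ fun W _ => hwwc W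
  have hsm : Continuous (fun z : Z 2 => w • z) := continuous_const_smul w
  have hMm : ∀ j, Measurable (M j) := fun j =>
    ENNReal.measurable_ofReal.comp ((hNdc _).comp hsm).measurable
  have hM0 : ∀ j ∈ I, ∀ z, M j z ≠ 0 ∧ M j z ≠ ⊤ := by
    intro j hj z
    refine ⟨?_, ENNReal.ofReal_ne_top⟩
    rw [Ne, ENNReal.ofReal_eq_zero, not_le]
    obtain ⟨W, hW, rfl⟩ := Finset.mem_image.mp hj
    unfold Nd
    refine Finset.sum_pos (fun V _ => ((hOWA 2 N R δ V hR hδ.le).2.1 _ _).1) ⟨W, ?_⟩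
    exact (mem_Sb w S _ W).2 ⟨hW, rfl⟩
  have hρ : R ^ (-δ) ≤ (R' ^ (1 / (J : ℝ)))⁻¹ := by
    rw [Real.rpow_neg hR0.le]
    refine inv_anti₀ (by positivity) ?_
    calc R' ^ (1 / (J : ℝ)) ≤ R ^ (1 / (J : ℝ)) := Real.rpow_le_rpow hR'0.le hR'R hJ0
      _ ≤ R ^ δ := Real.rpow_le_rpow_of_exponent_le hR hJδ
  have hSlow : ∀ j, Slow CS (2 * N) (ctr (sR R') j) (sR R') (R' ^ (1 / (J : ℝ))) (M j) := by
    intro j z z'
    change ENNReal.ofReal (Nd N R δ (w * R ^ δ) (Sb w S j) (w • z)) ≤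
      ENNReal.ofReal (CS * (1 + ‖(R' ^ (1 / (J : ℝ)))⁻¹ • Lo (ctr (sR R') j) (sR R')
        (z - z')‖) ^ (2 * N)) * ENNReal.ofReal (Nd N R δ (w * R ^ δ) (Sb w S j) (w • z'))
    rw [← ENNReal.ofReal_mul (by positivity)]
    refine ENNReal.ofReal_le_ofReal ?_
    unfold Nd
    rw [Finset.mul_sum]
    refine Finset.sum_le_sum fun W hW => ?_
    obtain ⟨hWS, hWj⟩ := (mem_Sb w S j W).1 hW
    have hctr : ‖ctr (sR R) W.1 - ctr (w * sR R) j‖ ≤ 3 * (w * sR R) := by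
      have h1 := (hKBL R w W.1 hR hw1).1
      rw [hWj] at h1
      have h2 : 0 ≤ w * sR R := by positivity
      linarith
    have h4 := (hS4 R δ w W (w • z) (w • z') hR hδ.le hw1 hwsq (hHB W hWS).2.1).2.2.2
      (ctr (w * sR R) j) hctr
    have e1 : w⁻¹ • (w • z - w • z') = z - z' := by
      rw [← smul_sub, smul_smul, inv_mul_cancel₀ hw0.ne', one_smul]
    rw [e1] at h4
    refine h4.trans ?_
    refine mul_le_mul_of_nonneg_right ?_ ((hOWA 2 N R δ W hR hδ.le).2.1 _ _).1.le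
    refine mul_le_mul_of_nonneg_left ?_ (by linarith)
    refine pow_le_pow_left₀ (by positivity) ?_ _
    rw [hsR', norm_smul, norm_smul, Real.norm_eq_abs, Real.norm_eq_abs,
      abs_of_pos (Real.rpow_pos_of_pos hR0 _), abs_of_pos (by positivity)]
    have := mul_le_mul_of_nonneg_right hρ
      (norm_nonneg (Lo (ctr (w * sR R) j) (w * sR R) (z - z')))
    linarith
  have hRDA' := hRD R' I G' M hR'1 hIK (fun k _ => hG'TC k)
    (by
      intro k _ ζ hζ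
      obtain ⟨q1, q2, -, q3, q4⟩ := hG'supp k ζ hζ
      rw [hsR']
      exact ⟨q1, by linarith, q3, q4⟩)
    (fun k hk => ⟨hMm k, hSlow k, hM0 k hk⟩)
  have hsumM : ∀ z, ∑ j ∈ I, M j z = ENNReal.ofReal (Nd N R δ (w * R ^ δ) S (w • z)) := by
    intro z
    rw [hMdef]
    rw [← ENNReal.ofReal_sum_of_nonneg (fun j _ => nd_nn _ _ _ _ _ _)]
    congr 1
    unfold Nd
    exact sum_Sb w S _
  have hsumG : ∀ z, ∑ j ∈ I, TF (G' j) z = ∑ W ∈ S, TF (mu1 φ w (G W)) (w • z) := by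
    intro z
    rw [Finset.sum_congr rfl fun j _ => hG'TF j z]
    exact sum_Sb w S _
  simp only [hsumM, hsumG] at hRDA'
  refine hRDA'.trans ?_
  -- pointwise bound
  set lam : ℝ := CH * C₀ * (R ^ δ / w) with hlam
  have hlam0 : 0 ≤ lam := by positivity
  have hpw : ∀ j z, ‖TF (G' j) z‖ₑ ≤ ENNReal.ofReal lam * M j z := by
    intro j z
    rw [hMdef]
    change ‖TF (G' j) z‖ₑ ≤ ENNReal.ofReal lam *
      ENNReal.ofReal (Nd N R δ (w * R ^ δ) (Sb w S j) (w • z))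
    rw [← ENNReal.ofReal_mul hlam0, ← ofReal_norm]
    refine ENNReal.ofReal_le_ofReal ?_
    rw [hG'TF]
    unfold Nd
    rw [Finset.mul_sum]
    refine (norm_sum_le _ _).trans (Finset.sum_le_sum fun W hW => ?_)
    obtain ⟨hWS, -⟩ := (mem_Sb w S j W).1 hW
    obtain ⟨-, -, hTC, hTF, -⟩ := hHB W hWS
    refine (hH R δ w C₀ W (G W) hR hδ.le hw (by linarith) hTC hTF (w • z)).trans ?_
    exact mul_le_mul_of_nonneg_left ((hOWA 2 N R δ W hR hδ.le).2.2.1 w (w * R ^ δ) _ hw0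
      (le_mul_of_one_le_right hw0.le hRd1)) hlam0
  have hMle : ∀ j z, M j z ≤ ENNReal.ofReal (CM * w ^ 3) := by
    intro j z
    exact ENNReal.ofReal_le_ofReal ((hM R δ w S (w • z) hR hδ.le hw1).2.1 j)
  have hCM0 : 0 ≤ CM := by linarith
  have hCMw : 0 ≤ CM * w ^ 3 := by positivity
  have hup : ∑ j ∈ I, ∫⁻ z, ‖TF (G' j) z‖ₑ ^ P * M j z ^ (1 - P / 2) ≤
      ENNReal.ofReal lam ^ P * ENNReal.ofReal (CM * w ^ 3) ^ (P / 2) *
        (S.card * (ENNReal.ofReal ((w⁻¹) ^ 4) * ENNReal.ofReal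
          (CI * R ^ (δ * 3) * (w * R ^ δ) * R ^ 2))) := by
    have h1 : ∀ j ∈ I, ∫⁻ z, ‖TF (G' j) z‖ₑ ^ P * M j z ^ (1 - P / 2) ≤
        ENNReal.ofReal lam ^ P * ENNReal.ofReal (CM * w ^ 3) ^ (P / 2) * ∫⁻ z, M j z := by
      intro j hj
      rw [← lintegral_const_mul _ (hMm j)]
      refine lintegral_mono fun z => ?_
      have h2 : ‖TF (G' j) z‖ₑ ^ P ≤ ENNReal.ofReal lam ^ P * M j z ^ P := by
        rw [← ENNReal.mul_rpow_of_nonneg _ _ hP0.le]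
        exact ENNReal.rpow_le_rpow (hpw j z) hP0.le
      refine (mul_le_mul' h2 le_rfl).trans ?_
      rw [mul_assoc, mul_assoc]
      refine mul_le_mul' le_rfl ?_
      rw [← ENNReal.rpow_add _ _ (hM0 j hj z).1 (hM0 j hj z).2,
        show P + (1 - P / 2) = P / 2 + 1 by ring,
        ENNReal.rpow_add _ _ (hM0 j hj z).1 (hM0 j hj z).2, ENNReal.rpow_one]
      exact mul_le_mul' (ENNReal.rpow_le_rpow (hMle j z) (by positivity)) le_rfl
    refine (Finset.sum_le_sum h1).trans ?_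
    rw [← Finset.mul_sum]
    refine mul_le_mul' le_rfl ?_
    have hwm : ∀ W : Pk 2, Measurable (fun z : Z 2 =>
        ENNReal.ofReal (ww N R δ (w * R ^ δ) W (w • z))) := fun W =>
      ENNReal.measurable_ofReal.comp ((hwwc W).comp hsm).measurable
    have h2 : ∀ j ∈ I, ∫⁻ z, M j z = ∑ W ∈ Sb w S j,
          ∫⁻ z : Z 2, ENNReal.ofReal (ww N R δ (w * R ^ δ) W (w • z)) := by
      intro j _
      rw [← lintegral_finsetSum _ fun W _ => hwm W]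
      refine lintegral_congr fun z => ?_
      change ENNReal.ofReal (Nd N R δ (w * R ^ δ) (Sb w S j) (w • z)) = _
      unfold Nd
      exact ENNReal.ofReal_sum_of_nonneg fun W _ => ((hOWA 2 N R δ W hR hδ.le).2.1 _ _).1.le
    rw [Finset.sum_congr rfl h2, sum_Sb w S]
    calc ∑ W ∈ S, ∫⁻ z : Z 2, ENNReal.ofReal (ww N R δ (w * R ^ δ) W (w • z))
        ≤ ∑ W ∈ S, (ENNReal.ofReal ((w⁻¹) ^ 4) * ENNReal.ofReal
          (CI * R ^ (δ * 3) * (w * R ^ δ) * R ^ 2)) := by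
          refine Finset.sum_le_sum fun W _ => ?_
          have hme : Measurable (fun z : Z 2 => ENNReal.ofReal (ww N R δ (w * R ^ δ) W z)) :=
            ENNReal.measurable_ofReal.comp (hwwc W).measurable
          rw [lint_scale_Z _ hme w hw0]
          refine mul_le_mul' le_rfl ?_
          refine (hI R δ (w * R ^ δ) W hR hδ.le hwR1).trans (le_of_eq ?_)
          have e1 : δ * (((2 : ℕ) : ℝ) + 1) = δ * 3 := by
            push_cast
            ring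
          have e2 : (((2 : ℕ) : ℝ) + 2) / 2 = ((2 : ℕ) : ℝ) := by
            push_cast
            norm_num
          rw [e1, e2, Real.rpow_natCast]
      _ = _ := by rw [Finset.sum_const, nsmul_eq_mul]
  refine (mul_le_mul' le_rfl hup).trans ?_
  have e7 : ENNReal.ofReal lam ^ P = ENNReal.ofReal (lam ^ P) :=
    ENNReal.ofReal_rpow_of_nonneg hlam0 hP0.le
  have e9 : ENNReal.ofReal (CM * w ^ 3) ^ (P / 2) = ENNReal.ofReal ((CM * w ^ 3) ^ (P / 2)) :=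
    ENNReal.ofReal_rpow_of_nonneg hCMw (by positivity)
  have e8 : (S.card : ℝ≥0∞) = ENNReal.ofReal (S.card : ℝ) := (ENNReal.ofReal_natCast _).symm
  have hlP : 0 ≤ lam ^ P := Real.rpow_nonneg hlam0 _
  have hcP : 0 ≤ (CM * w ^ 3) ^ (P / 2) := Real.rpow_nonneg hCMw _
  rw [e7, e8, e9, ← ENNReal.ofReal_mul (by positivity), ← ENNReal.ofReal_mul (by positivity),
    ← ENNReal.ofReal_mul (by positivity), ← ENNReal.ofReal_mul (by positivity),
    ← ENNReal.ofReal_mul (by positivity)]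
  refine ENNReal.ofReal_le_ofReal ?_
  refine (expo R w P δ J C3 (CH * C₀) CM CI S.card hR hw1 hδ hP0.le hP4.le hJ0 hJδ hC3.le hCC0
    hCM0 (by linarith) (by positivity)).trans ?_
  refine mul_le_mul_of_nonneg_right ?_ (by positivity)
  refine mul_le_mul_of_nonneg_right ?_ (by positivity)
  refine mul_le_mul_of_nonneg_right ?_ (by positivity)
  refine mul_le_mul_of_nonneg_right ?_ (by positivity)
  exact le_max_right _ _

end Pool.Agent.H4.LSB.HRI
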